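import Pool.Agent.J4H7.WS.R

set_option autoImplicit false

/-!
# Waring's problem for generic polynomials, density one, part A (helper7)

The exceptional integers of one block.
-/

namespace Pool.Agent.J4H7.WU

open Real Set Filter Topology
open Pool.Agent.J4H7.WE
open Pool.Agent.J4H7.WP
open Pool.Agent.J4H7.WR
open Pool.Agent.J4H7.WS
open Pool.Agent.Helper153.Vdc (ee)

open scoped Classical in
/-- the weighted number of representations with one sum -/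
noncomputable def rr {ι κ : Type*} (A : Finset ι) (f : ι → ℕ) (B : Finset κ) (g : κ → ℕ) (w : κ → ℝ) (N : ℤ) : ℝ :=
  ∑ a ∈ A, ∑ b ∈ B, if ((f a : ℤ) + g b = N) then w b else 0

/-- the variance bound -/
def VAR : Prop := ∀ (n : ℕ) (A : Finset (Fin n → ℕ)) (f : (Fin n → ℕ) → ℕ) (B : Finset ℕ) (g : ℕ → ℕ) (w : ℕ → ℝ) (W : ℕ) (B0 : ℝ), 0 ≤ B0 →
  (∀ α : ℝ, |α| ≤ 1 / 2 → ‖GGs B g w α‖ * ‖1 - KK W α‖ ≤ B0) → ∀ S : Finset ℤ,
    ∑ N ∈ S, (rr A f B g w N - (1 / (W : ℝ)) * ∑ h ∈ Finset.range W, rr A f B g w (N - h)) ^ 2 ≤ B0 ^ 2 * JJ A f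

/-- the bound for the generating functions -/
lemma gen_bound {k : ℕ} (hk : 2 ≤ k) {f : ℝ → ℝ} (hf : Fn k f) (hES : ESall k f) {ρ : ℝ} (hρ : 0 < ρ) (hρ1 : ρ ≤ 1 / 4) :
    ∃ τ : ℝ, 0 < τ ∧ τ ≤ ρ / 2 ∧ ∃ C : ℝ, 1 ≤ C ∧ ∃ X0 : ℝ, 4 ≤ X0 ∧ ∀ X : ℝ, X0 ≤ X → ∀ α : ℝ, |α| ≤ 1 / 2 →
      ‖GGs (BB X) (fr f) (fun z : ℕ => ww (f z)) α‖ * ‖1 - KK ⌈X ^ ((k : ℝ) - ρ)⌉₊ α‖ ≤ C * X ^ (1 - τ) := by
  have hk' : (2 : ℝ) ≤ k := by exact_mod_cast hk
  obtain ⟨σ, hσ, hσ1, C, hC, X2, hX2, H2⟩ := GR_bound hk hf.nn hES (η := ρ / 4) (by positivity) (by linarith)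
  set τ : ℝ := min (ρ / 2) σ with hτ
  have hτ0 : 0 < τ := lt_min (by positivity) hσ
  refine ⟨τ, hτ0, min_le_left _ _, 60000 + 2 * C, by linarith, X2, hX2, ?_⟩
  intro X gX2 α hα
  have gX4 : 4 ≤ X := hX2.trans gX2
  have hX1' : (1 : ℝ) ≤ X := by linarith
  have hX0 : 0 < X := by linarith
  set W : ℕ := ⌈X ^ ((k : ℝ) - ρ)⌉₊ with hW
  have hXθρ : 1 ≤ X ^ ((k : ℝ) - ρ) := Real.one_le_rpow hX1' (by linarith)
  have hWl : X ^ ((k : ℝ) - ρ) ≤ W := Nat.le_ceil _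
  have hWu : (W : ℝ) ≤ 2 * X ^ ((k : ℝ) - ρ) := by
    have := Nat.ceil_lt_add_one (show 0 ≤ X ^ ((k : ℝ) - ρ) by linarith)
    rw [← hW] at this
    linarith
  have hW1 : 1 ≤ W := by
    have : (1 : ℝ) ≤ W := hXθρ.trans hWl
    exact_mod_cast this
  have hXk : 0 < X ^ (k : ℝ) := Real.rpow_pos_of_pos hX0 _
  have hXτ : 0 < X ^ (1 - τ) := Real.rpow_pos_of_pos hX0 _
  have hY4 : 4 * X ≤ (⌈4 * X⌉₊ : ℝ) := Nat.le_ceil _
  have hYM := BB_len hX1'
  rw [GGsR_eq]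
  rcases le_or_gt (X ^ (2 * (ρ / 4))) (|α| * X ^ (k : ℝ)) with h | h
  · have h1 := H2 X gX2 α hα h _ _ hY4 hYM
    have h2 := KK_le hW1 α
    calc _ ≤ (C * X ^ (1 - σ)) * 2 := mul_le_mul h1 h2 (norm_nonneg _) (by positivity)
      _ ≤ (C * X ^ (1 - τ)) * 2 := by
          apply mul_le_mul_of_nonneg_right _ (by norm_num)
          apply mul_le_mul_of_nonneg_left _ (by linarith)
          exact Real.rpow_le_rpow_of_exponent_le hX1' (by linarith [min_le_right (ρ / 2) σ])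
      _ ≤ _ := by nlinarith
  · have h1 := GR_triv f ⌈4 * X⌉₊ (⌊64 * X⌋₊ + 1 - ⌈4 * X⌉₊) α
    have h1' : ((⌊64 * X⌋₊ + 1 - ⌈4 * X⌉₊ : ℕ) : ℝ) ≤ 65 * X := by
      have : (0 : ℝ) ≤ (⌈4 * X⌉₊ : ℝ) := by positivity
      linarith
    have h2 := KK_small hW1 α
    have h3 : |α| ≤ X ^ (2 * (ρ / 4)) / X ^ (k : ℝ) := by
      rw [le_div_iff₀ hXk]
      exact h.le
    have h4 : ‖1 - KK W α‖ ≤ 13 * X ^ (-(ρ / 2)) := by
      calc ‖1 - KK W α‖ ≤ 2 * Real.pi * W * |α| := h2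
        _ ≤ 2 * Real.pi * (2 * X ^ ((k : ℝ) - ρ)) * (X ^ (2 * (ρ / 4)) / X ^ (k : ℝ)) := by
          have := Real.pi_pos
          gcongr
        _ = 4 * Real.pi * (X ^ ((k : ℝ) - ρ) * X ^ (2 * (ρ / 4)) / X ^ (k : ℝ)) := by ring
        _ = 4 * Real.pi * X ^ (-(ρ / 2)) := by
          rw [← Real.rpow_add hX0, ← Real.rpow_sub hX0]
          congr 2
          ring
        _ ≤ 13 * X ^ (-(ρ / 2)) := by
          apply mul_le_mul_of_nonneg_right _ (Real.rpow_nonneg hX0.le _)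
          have := Real.pi_lt_d2
          linarith
    calc _ ≤ (65 * X) * (13 * X ^ (-(ρ / 2))) :=
          mul_le_mul (h1.trans h1') h4 (norm_nonneg _) (by positivity)
      _ = 845 * X ^ (1 - ρ / 2) := by
          rw [show 1 - ρ / 2 = 1 + -(ρ / 2) by ring, Real.rpow_add hX0, Real.rpow_one]
          ring
      _ ≤ 845 * X ^ (1 - τ) := by
          apply mul_le_mul_of_nonneg_left _ (by norm_num)
          exact Real.rpow_le_rpow_of_exponent_le hX1' (by linarith [min_le_left (ρ / 2) σ])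
      _ ≤ _ := by nlinarith

/-- **the exceptional integers of one block** -/
theorem exc_block (hV : VAR) {k : ℕ} (hk : 2 ≤ k) {f : ℝ → ℝ} (hf : Fn k f) (hES : ESall k f) (n : ℕ)
    (AS : ℕ → Finset (Fin n → ℕ)) (hne : ∀ j, (AS j).Nonempty) (hpos : ∀ j, ∀ x ∈ AS j, ∀ i, 1 ≤ x i)
    (hsize : ∀ᶠ j : ℕ in atTop, ∀ x ∈ AS j, (fsR f x : ℝ) ≤ 4 * (2 * (2 : ℝ) ^ j) ^ k)
    (hJ : ∀ ε : ℝ, 0 < ε → ∀ᶠ j : ℕ in atTop,
      (JJ (AS j) (fsR f) : ℝ) ≤ ((AS j).card : ℝ) ^ 2 * ((2 : ℝ) ^ j) ^ (-(k : ℝ) + ε)) :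
    ∃ δ : ℝ, 0 < δ ∧ δ < 1 ∧ ∀ᶠ j : ℕ in atTop, ∀ S : Finset ℕ, (∀ N ∈ S, (16 * (2 : ℝ) ^ j) ^ k ≤ N ∧ (N : ℝ) ≤ (32 * (2 : ℝ) ^ j) ^ k ∧
      ¬ ∃ (x : Fin n → ℕ) (z : ℕ), (∀ i, 1 ≤ x i) ∧ 1 ≤ z ∧ fsR f x + fr f z = N) →
      (S.card : ℝ) ≤ ((2 : ℝ) ^ j) ^ ((k : ℝ) - δ) := by
  classical
  have hk' : (2 : ℝ) ≤ k := by exact_mod_cast hk
  obtain ⟨ρ, hρ, hρ1, c', hc', X1, hX1, H1⟩ := count_R hk hf hES
  obtain ⟨τ, hτ0, hτρ, C, hC, X2, hX2, H2⟩ := gen_bound hk hf hES hρ hρ1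
  refine ⟨τ, hτ0, by linarith, ?_⟩
  have hj : Tendsto (fun j : ℕ => (2 : ℝ) ^ j) atTop atTop := tendsto_pow_atTop_atTop_of_one_lt (by norm_num)
  have ev2 : ∀ᶠ X : ℝ in atTop, C ^ 2 * (4 / c' ^ 2) ≤ X ^ (τ / 2) :=
    (tendsto_rpow_atTop (by positivity)).eventually_ge_atTop _
  have evX := hj.eventually ((eventually_ge_atTop (max (max X1 X2) 4)).and ev2)
  filter_upwards [evX, hJ (τ / 2) (by positivity), hsize] with j hjX hJj hfs
  set X : ℝ := (2 : ℝ) ^ j with hXdef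
  obtain ⟨gX, g2⟩ := hjX
  have gX1 : X1 ≤ X := (le_max_left _ _).trans ((le_max_left _ _).trans gX)
  have gX2 : X2 ≤ X := (le_max_right _ _).trans ((le_max_left _ _).trans gX)
  have gX4 : 4 ≤ X := (le_max_right _ _).trans gX
  have hX1' : (1 : ℝ) ≤ X := by linarith
  have hX0 : 0 < X := by linarith
  intro S hS
  -- notation
  set W : ℕ := ⌈X ^ ((k : ℝ) - ρ)⌉₊ with hW
  have hXθρ : 1 ≤ X ^ ((k : ℝ) - ρ) := Real.one_le_rpow hX1' (by linarith)
  have hWl : X ^ ((k : ℝ) - ρ) ≤ W := Nat.le_ceil _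
  have hWu : (W : ℝ) ≤ 2 * X ^ ((k : ℝ) - ρ) := by
    have := Nat.ceil_lt_add_one (show 0 ≤ X ^ ((k : ℝ) - ρ) by linarith)
    rw [← hW] at this
    linarith
  have hW1 : 1 ≤ W := by
    have : (1 : ℝ) ≤ W := hXθρ.trans hWl
    exact_mod_cast this
  have hW0 : (0 : ℝ) < W := by exact_mod_cast hW1
  set A := AS j with hA
  set w : ℕ → ℝ := fun z : ℕ => ww (f z) with hw
  have hw0 : ∀ p, 0 ≤ w p := fun p => ww_nonneg _
  have hcard : 0 < (A.card : ℝ) := by exact_mod_cast Finset.card_pos.2 (hne j)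
  have hXk : 0 < X ^ (k : ℝ) := Real.rpow_pos_of_pos hX0 _
  have hXτ : 0 < X ^ (1 - τ) := Real.rpow_pos_of_pos hX0 _
  have key := hV n A (fsR f) (BB X) (fr f) w W (C * X ^ (1 - τ)) (by positivity) (fun α hα => H2 X gX2 α hα)
    (S.map ⟨fun n : ℕ => (n : ℤ), Nat.cast_injective⟩)
  rw [Finset.sum_map] at key
  simp only [Function.Embedding.coeFn_mk] at key
  -- powers
  have p1 : (16 : ℝ) ≤ (4 : ℝ) ^ k := by
    have : (4 : ℝ) ^ 2 ≤ (4 : ℝ) ^ k := pow_le_pow_right₀ (by norm_num) hk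
    linarith
  have p2 : (64 : ℝ) ≤ (8 : ℝ) ^ k := by
    have : (8 : ℝ) ^ 2 ≤ (8 : ℝ) ^ k := pow_le_pow_right₀ (by norm_num) hk
    linarith
  have hXkn : 0 < X ^ k := by positivity
  have e16 : (16 * X) ^ k = 8 ^ k * (2 * X) ^ k := by
    rw [← mul_pow]
    congr 1
    ring
  have e16' : (16 * X) ^ k = 4 ^ k * (4 * X) ^ k := by
    rw [← mul_pow]
    congr 1
    ring
  have e4 : (4 * X) ^ k = 4 ^ k * X ^ k := mul_pow _ _ _
  have h2X : 0 < (2 * X) ^ k := by positivity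
  have h4X : 0 < (4 * X) ^ k := by positivity
  -- one exceptional integer
  have hone : ∀ N ∈ S, ((A.card : ℝ) * (c' / 2 * X ^ (1 - (k : ℝ)))) ^ 2 ≤
      (rr A (fsR f) (BB X) (fr f) w (N : ℤ) - (1 / (W : ℝ)) * ∑ h ∈ Finset.range W, rr A (fsR f) (BB X) (fr f) w ((N : ℤ) - h)) ^ 2 := by
    intro N hN
    obtain ⟨hN1, hN2, hN3⟩ := hS N hN
    -- no representation
    have hz : rr A (fsR f) (BB X) (fr f) w (N : ℤ) = 0 := by
      unfold rr
      apply Finset.sum_eq_zero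
      intro a ha
      apply Finset.sum_eq_zero
      intro b hb
      rw [if_neg]
      intro h
      apply hN3
      refine ⟨a, b, hpos j a ha, ?_, by exact_mod_cast h⟩
      unfold BB at hb
      rw [Finset.mem_Ico, Nat.ceil_le] at hb
      have : (1 : ℝ) ≤ b := by linarith [hb.1]
      exact_mod_cast this
    -- the average from below
    have havg : (A.card : ℝ) * (c' * X ^ (1 - ρ)) ≤
        ∑ h ∈ Finset.range W, rr A (fsR f) (BB X) (fr f) w ((N : ℤ) - h) := by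
      have e1 : ∑ h ∈ Finset.range W, rr A (fsR f) (BB X) (fr f) w ((N : ℤ) - h) =
          ∑ a ∈ A, ∑ b ∈ BB X, ∑ h ∈ Finset.range W,
            if ((fsR f a : ℤ) + fr f b = (N : ℤ) - h) then w b else 0 := by
        unfold rr
        rw [Finset.sum_comm]
        refine Finset.sum_congr rfl fun a _ => ?_
        rw [Finset.sum_comm]
      rw [e1]
      have h2 : ∀ a ∈ A, c' * X ^ (1 - ρ) ≤ ∑ b ∈ BB X, ∑ h ∈ Finset.range W,
          if ((fsR f a : ℤ) + fr f b = (N : ℤ) - h) then w b else 0 := by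
        intro a ha
        have f1 := hfs a ha
        have hle : fsR f a ≤ N := by
          have : (fsR f a : ℝ) ≤ N := by nlinarith
          exact_mod_cast this
        set T : ℕ := N - fsR f a with hT
        have hTr : (T : ℝ) = N - fsR f a := by
          rw [hT, Nat.cast_sub hle]
        have hT1 : 2 * (4 * X) ^ k ≤ (T : ℝ) - W + 1 := by
          have a1 : (W : ℝ) ≤ 2 * X ^ k := by
            have : X ^ ((k : ℝ) - ρ) ≤ X ^ (k : ℝ) := Real.rpow_le_rpow_of_exponent_le hX1' (by linarith)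
            rw [Real.rpow_natCast] at this
            linarith
          have a2 : (N : ℝ) / 2 ≤ T := by
            rw [hTr]
            nlinarith
          have a3 : 16 * (4 * X) ^ k ≤ N := by
            rw [e16'] at hN1
            nlinarith
          have a4 : 16 * X ^ k ≤ (4 * X) ^ k := by
            rw [e4]
            nlinarith
          linarith
        have hT2 : (T : ℝ) ≤ (32 * X) ^ k := by
          have : (0 : ℝ) ≤ (fsR f a : ℝ) := by positivity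
          rw [hTr]
          linarith
        refine (H1 X gX1 W T hWl hT1 hT2).trans ?_
        refine Finset.sum_le_sum fun b _ => ?_
        by_cases hb : T < fr f b + W ∧ fr f b ≤ T
        · rw [if_pos hb]
          set h : ℕ := T - fr f b with hh
          have hmem : h ∈ Finset.range W := by
            rw [Finset.mem_range]
            omega
          have h3 := Finset.single_le_sum (f := fun h : ℕ => if ((fsR f a : ℤ) + fr f b = (N : ℤ) - h) then w b else 0)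
            (fun h _ => by
              split_ifs
              · exact hw0 _
              · exact le_rfl) hmem
          refine le_trans ?_ h3
          rw [if_pos (by omega)]
        · rw [if_neg hb]
          apply Finset.sum_nonneg
          intro h _
          split_ifs
          · exact hw0 _
          · exact le_rfl
      calc (A.card : ℝ) * (c' * X ^ (1 - ρ)) = ∑ _a ∈ A, c' * X ^ (1 - ρ) := by
            simp only [Finset.sum_const, nsmul_eq_mul]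
        _ ≤ _ := Finset.sum_le_sum fun a ha => h2 a ha
    have hX1θ : 0 < X ^ (1 - (k : ℝ)) := Real.rpow_pos_of_pos hX0 _
    have h2 : (A.card : ℝ) * (c' / 2 * X ^ (1 - (k : ℝ))) ≤
        1 / (W : ℝ) * ∑ h ∈ Finset.range W, rr A (fsR f) (BB X) (fr f) w ((N : ℤ) - h) := by
      have h3 : (A.card : ℝ) * (c' / 2 * X ^ (1 - (k : ℝ))) ≤ 1 / (W : ℝ) * ((A.card : ℝ) * (c' * X ^ (1 - ρ))) := by
        have h4 : X ^ (1 - ρ) = X ^ (1 - (k : ℝ)) * X ^ ((k : ℝ) - ρ) := by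
          rw [← Real.rpow_add hX0]
          congr 1
          ring
        have h5 : (W : ℝ) * X ^ (1 - (k : ℝ)) ≤ 2 * X ^ (1 - ρ) := by
          rw [h4]
          nlinarith
        rw [one_div, ← div_eq_inv_mul, le_div_iff₀ hW0]
        have h6 : 0 ≤ (A.card : ℝ) * (c' / 2) := by positivity
        nlinarith [mul_le_mul_of_nonneg_left h5 h6]
      refine h3.trans ?_
      exact mul_le_mul_of_nonneg_left havg (by positivity)
    rw [hz, zero_sub, neg_sq]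
    exact pow_le_pow_left₀ (by positivity) h2 2
  -- the conclusion
  have hsum : (S.card : ℝ) * ((A.card : ℝ) * (c' / 2 * X ^ (1 - (k : ℝ)))) ^ 2 ≤ (C * X ^ (1 - τ)) ^ 2 * JJ A (fsR f) := by
    refine le_trans ?_ key
    calc (S.card : ℝ) * ((A.card : ℝ) * (c' / 2 * X ^ (1 - (k : ℝ)))) ^ 2 =
          ∑ _N ∈ S, ((A.card : ℝ) * (c' / 2 * X ^ (1 - (k : ℝ)))) ^ 2 := by simp
      _ ≤ _ := Finset.sum_le_sum hone
  have hJ2 : (C * X ^ (1 - τ)) ^ 2 * JJ A (fsR f) ≤ (C * X ^ (1 - τ)) ^ 2 * ((A.card : ℝ) ^ 2 * X ^ (-(k : ℝ) + τ / 2)) :=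
    mul_le_mul_of_nonneg_left hJj (by positivity)
  have hX1θ : 0 < X ^ (1 - (k : ℝ)) := Real.rpow_pos_of_pos hX0 _
  have hden : 0 < ((A.card : ℝ) * (c' / 2 * X ^ (1 - (k : ℝ)))) ^ 2 := by positivity
  rw [← mul_le_mul_iff_of_pos_right hden]
  refine (hsum.trans hJ2).trans ?_
  have e1 : (X ^ (1 - τ)) ^ 2 * X ^ (-(k : ℝ) + τ / 2) * X ^ (τ / 2) = X ^ ((k : ℝ) - τ) * (X ^ (1 - (k : ℝ))) ^ 2 := by
    rw [← Real.rpow_natCast, ← Real.rpow_natCast, ← Real.rpow_mul hX0.le, ← Real.rpow_mul hX0.le, ← Real.rpow_add hX0,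
      ← Real.rpow_add hX0, ← Real.rpow_add hX0]
    congr 1
    push_cast
    ring
  have hpp : 0 < (X ^ (1 - τ)) ^ 2 * X ^ (-(k : ℝ) + τ / 2) := by positivity
  calc (C * X ^ (1 - τ)) ^ 2 * ((A.card : ℝ) ^ 2 * X ^ (-(k : ℝ) + τ / 2))
      = (A.card : ℝ) ^ 2 * (c' ^ 2 / 4) * ((C ^ 2 * (4 / c' ^ 2)) * ((X ^ (1 - τ)) ^ 2 * X ^ (-(k : ℝ) + τ / 2))) := by
        field_simp
    _ ≤ (A.card : ℝ) ^ 2 * (c' ^ 2 / 4) * (X ^ (τ / 2) * ((X ^ (1 - τ)) ^ 2 * X ^ (-(k : ℝ) + τ / 2))) := by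
        apply mul_le_mul_of_nonneg_left _ (by positivity)
        exact mul_le_mul_of_nonneg_right g2 hpp.le
    _ = (A.card : ℝ) ^ 2 * (c' ^ 2 / 4) * ((X ^ (1 - τ)) ^ 2 * X ^ (-(k : ℝ) + τ / 2) * X ^ (τ / 2)) := by ring
    _ = _ := by
        rw [e1]
        ring

end Pool.Agent.J4H7.WU
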