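import Pool.Agent.J4H7.WU.A
import Pool.Agent.J4H30.WT.Var

set_option autoImplicit false

/-!
# Waring's problem for generic polynomials, density one, part B (helper7)

The number of exceptional integers below `X`.
-/

namespace Pool.Agent.J4H7.WU

open Filter Topology

theorem var_holds : VAR := fun _ A f B g w _ _ hB0 hB S => Pool.Agent.J4H30.WT.var_bound A f B g w hB0 hB S

/-- a geometric sum -/
lemma geom_le {a : ℝ} (ha : 1 ≤ a) (m : ℕ) : ∑ j ∈ Finset.range m, ((2 : ℝ) ^ j) ^ a ≤ ((2 : ℝ) ^ m) ^ a := by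
  induction m with
  | zero => simp
  | succ m ih =>
    rw [Finset.sum_range_succ]
    have h1 : ((2 : ℝ) ^ (m + 1)) ^ a = ((2 : ℝ) ^ m) ^ a * 2 ^ a := by
      rw [pow_succ, Real.mul_rpow (by positivity) (by norm_num)]
    have h2 : (2 : ℝ) ≤ 2 ^ a := by
      calc (2 : ℝ) = 2 ^ (1 : ℝ) := (Real.rpow_one 2).symm
        _ ≤ 2 ^ a := Real.rpow_le_rpow_of_exponent_le (by norm_num) ha
    have h3 : 0 ≤ ((2 : ℝ) ^ m) ^ a := by positivity
    rw [h1]
    nlinarith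

/-- from the blocks to an initial segment -/
theorem exc_count {k : ℕ} (hk : 2 ≤ k) {δ : ℝ} (hδ : 0 < δ) (hδ1 : δ < 1) (P : ℕ → Prop)
    (h : ∀ᶠ j : ℕ in atTop, ∀ S : Finset ℕ,
      (∀ N ∈ S, (16 * (2 : ℝ) ^ j) ^ k ≤ N ∧ (N : ℝ) ≤ (32 * (2 : ℝ) ^ j) ^ k ∧ P N) →
      (S.card : ℝ) ≤ ((2 : ℝ) ^ j) ^ ((k : ℝ) - δ)) :
    ∀ᶠ X : ℕ in atTop, ∀ S : Finset ℕ, (∀ N ∈ S, N < X ∧ P N) → (S.card : ℝ) ≤ (X : ℝ) ^ (1 - δ / (2 * k)) := by
  classical
  have hk' : (2 : ℝ) ≤ k := by exact_mod_cast hk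
  obtain ⟨J, hJ⟩ := eventually_atTop.1 h
  have ev1 : ∀ᶠ X : ℕ in atTop, (32 * (2 : ℝ) ^ J) ^ k + 1 + 2 ^ k ≤ (X : ℝ) ^ (δ / (2 * k)) :=
    ((tendsto_rpow_atTop (by positivity)).comp tendsto_natCast_atTop_atTop).eventually_ge_atTop _
  filter_upwards [ev1, eventually_ge_atTop 1] with X h1 hX1 S hS
  have hX1' : (1 : ℝ) ≤ X := by exact_mod_cast hX1
  have hX0 : (0 : ℝ) < X := by linarith
  set y : ℝ := (X : ℝ) ^ ((1 : ℝ) / k) with hy
  have hk0 : (0 : ℝ) < k := by linarith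
  have hy1 : 1 ≤ y := Real.one_le_rpow hX1' (by positivity)
  have hyk : y ^ k = X := by
    rw [hy, ← Real.rpow_natCast, ← Real.rpow_mul hX0.le, one_div, inv_mul_cancel₀ hk0.ne', Real.rpow_one]
  obtain ⟨m, hm1, hm2⟩ := exists_nat_pow_near hy1 (by norm_num : (1 : ℝ) < 2)
  set D : ℕ := ⌈(32 * (2 : ℝ) ^ J) ^ k⌉₊ with hD
  -- covering
  have hcov : S ⊆ Finset.range D ∪ (Finset.range (m + 1)).biUnion
      fun j => S.filter fun N : ℕ => J ≤ j ∧ (16 * (2 : ℝ) ^ j) ^ k ≤ N ∧ (N : ℝ) ≤ (32 * (2 : ℝ) ^ j) ^ k := by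
    intro N hN
    rw [Finset.mem_union]
    by_cases hND : N < D
    · left
      exact Finset.mem_range.2 hND
    · right
      have hND' : (32 * (2 : ℝ) ^ J) ^ k ≤ N := (Nat.le_ceil _).trans (Nat.cast_le.2 (not_lt.1 hND))
      have hN0 : (0 : ℝ) < N := lt_of_lt_of_le (by positivity) hND'
      set v : ℝ := (N : ℝ) ^ ((1 : ℝ) / k) with hv
      have hvk : v ^ k = N := by
        rw [hv, ← Real.rpow_natCast, ← Real.rpow_mul hN0.le, one_div, inv_mul_cancel₀ hk0.ne', Real.rpow_one]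
      have hv0 : 0 ≤ v := by positivity
      have hv1 : 32 * (2 : ℝ) ^ J ≤ v := by
        rw [← hvk] at hND'
        exact (pow_le_pow_iff_left₀ (by positivity) hv0 (by omega)).1 hND'
      have h2J : (1 : ℝ) ≤ 2 ^ J := one_le_pow₀ (by norm_num)
      obtain ⟨j, hj1, hj2⟩ := exists_nat_pow_near (show 1 ≤ v / 16 by linarith) (by norm_num : (1 : ℝ) < 2)
      have hJj : J ≤ j := by
        by_contra hcon
        have : (2 : ℝ) ^ (j + 1) ≤ 2 ^ J := pow_le_pow_right₀ (by norm_num) (by omega)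
        linarith
      have hvy : v < y := by
        have : v ^ k < y ^ k := by
          rw [hvk, hyk]
          exact_mod_cast (hS N hN).1
        exact lt_of_pow_lt_pow_left₀ k (by linarith) this
      rw [Finset.mem_biUnion]
      refine ⟨j, ?_, ?_⟩
      · rw [Finset.mem_range]
        by_contra hcon
        have : (2 : ℝ) ^ (m + 1) ≤ 2 ^ j := pow_le_pow_right₀ (by norm_num) (by omega)
        linarith
      · rw [Finset.mem_filter]
        refine ⟨hN, hJj, ?_, ?_⟩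
        · rw [← hvk]
          exact pow_le_pow_left₀ (by positivity) (by linarith) k
        · rw [← hvk]
          apply pow_le_pow_left₀ hv0
          rw [pow_succ] at hj2
          linarith
  -- counting
  have hcard : (S.card : ℝ) ≤ D + ∑ j ∈ Finset.range (m + 1), ((2 : ℝ) ^ j) ^ ((k : ℝ) - δ) := by
    have h2 : S.card ≤ D + ∑ j ∈ Finset.range (m + 1),
        (S.filter fun N : ℕ => J ≤ j ∧ (16 * (2 : ℝ) ^ j) ^ k ≤ N ∧ (N : ℝ) ≤ (32 * (2 : ℝ) ^ j) ^ k).card := by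
      calc S.card ≤ _ := Finset.card_le_card hcov
        _ ≤ _ := Finset.card_union_le _ _
        _ ≤ _ := by
          rw [Finset.card_range]
          exact Nat.add_le_add_left Finset.card_biUnion_le _
    have h3 : ((S.card : ℕ) : ℝ) ≤ D + ∑ j ∈ Finset.range (m + 1),
        ((S.filter fun N : ℕ => J ≤ j ∧ (16 * (2 : ℝ) ^ j) ^ k ≤ N ∧ (N : ℝ) ≤ (32 * (2 : ℝ) ^ j) ^ k).card : ℝ) := by
      exact_mod_cast h2
    refine h3.trans ?_
    apply add_le_add le_rfl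
    apply Finset.sum_le_sum
    intro j _
    by_cases hJj : J ≤ j
    · apply hJ j hJj
      intro N hN
      rw [Finset.mem_filter] at hN
      exact ⟨hN.2.2.1, hN.2.2.2, (hS N hN.1).2⟩
    · rw [Finset.filter_false_of_mem]
      · simp only [Finset.card_empty, Nat.cast_zero]
        positivity
      · intro N _ hcon
        exact hJj hcon.1
  have hg := geom_le (a := (k : ℝ) - δ) (by linarith) (m + 1)
  have h4 : ((2 : ℝ) ^ (m + 1)) ^ ((k : ℝ) - δ) ≤ 2 ^ k * (X : ℝ) ^ (1 - δ / k) := by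
    calc ((2 : ℝ) ^ (m + 1)) ^ ((k : ℝ) - δ) ≤ (2 * y) ^ ((k : ℝ) - δ) := by
          apply Real.rpow_le_rpow (by positivity) _ (by linarith)
          rw [pow_succ]
          linarith
      _ = 2 ^ ((k : ℝ) - δ) * y ^ ((k : ℝ) - δ) := Real.mul_rpow (by norm_num) (by linarith)
      _ ≤ 2 ^ (k : ℝ) * y ^ ((k : ℝ) - δ) := by
          apply mul_le_mul_of_nonneg_right _ (by positivity)
          exact Real.rpow_le_rpow_of_exponent_le (by norm_num) (by linarith)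
      _ = _ := by
          rw [Real.rpow_natCast, hy, ← Real.rpow_mul hX0.le]
          congr 2
          field_simp
  have hD1 : (D : ℝ) ≤ (32 * (2 : ℝ) ^ J) ^ k + 1 := (Nat.ceil_lt_add_one (by positivity)).le
  have h5 : 1 ≤ (X : ℝ) ^ (1 - δ / k) := Real.one_le_rpow hX1' (by
    rw [sub_nonneg, div_le_one hk0]
    linarith)
  have hD2 : (D : ℝ) ≤ ((32 * (2 : ℝ) ^ J) ^ k) * (X : ℝ) ^ (1 - δ / k) + (X : ℝ) ^ (1 - δ / k) := by
    have : (0 : ℝ) ≤ (32 * (2 : ℝ) ^ J) ^ k := by positivity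
    nlinarith
  have e1 : (X : ℝ) ^ (δ / (2 * k)) * (X : ℝ) ^ (1 - δ / k) = (X : ℝ) ^ (1 - δ / (2 * k)) := by
    rw [← Real.rpow_add hX0]
    congr 1
    field_simp
    ring
  rw [← e1]
  have h6 : 0 ≤ (X : ℝ) ^ (1 - δ / k) := by linarith
  have h7 := mul_le_mul_of_nonneg_right h1 h6
  have h8 : ((32 * (2 : ℝ) ^ J) ^ k + 1 + 2 ^ k) * (X : ℝ) ^ (1 - δ / k) = ((32 * (2 : ℝ) ^ J) ^ k) * (X : ℝ) ^ (1 - δ / k) + (X : ℝ) ^ (1 - δ / k) +
      2 ^ k * (X : ℝ) ^ (1 - δ / k) := by ring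
  linarith

end Pool.Agent.J4H7.WU
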