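import Pool.Agent.J4H7.WU.B
import Pool.Agent.J4H7.WT.Q
import Pool.Agent.J4H30.WT.Few

set_option autoImplicit false

/-!
# Waring's problem for generic polynomials, density one (helper7, with helper30 and helper2)
-/

namespace Pool.Agent.J4H7.WU

open Finset MeasureTheory Filter Topology
open Pool.Agent.J4H7.WE (JJ)
open Pool.Agent.J4H7.WS (Fn ESall fr fsR fr_err)
open Pool.Agent.J4H7.WL (DC)
open Pool.Agent.J4H7.WT

/-- `N` is a sum of `s` values -/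
def Rp (k : ℕ) (α : Fin k → ℝ) (s N : ℕ) : Prop := ∃ x : Fin s → ℕ, (∀ i, 1 ≤ x i) ∧
  ∑ i, ⌊(x i : ℝ) ^ k + ∑ j : Fin k, α j * (x i : ℝ) ^ (j : ℕ)⌋₊ = N

lemma Rp_fr (k : ℕ) (α : Fin k → ℝ) (s N : ℕ) : Rp k α s N ↔ ∃ x : Fin s → ℕ, (∀ i, 1 ≤ x i) ∧ ∑ i, fr (PT k α) (x i) = N := Iff.rfl

/-- **`k + 1` terms: few exceptional integers** -/
theorem main1 (k : ℕ) (hk : 2 ≤ k) : ∀ᵐ α : Fin k → ℝ, (∀ i, 0 < α i) → ∃ δ : ℝ, 0 < δ ∧ ∃ X₀ : ℕ, ∀ X : ℕ, X₀ ≤ X →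
    ({N : ℕ | N < X ∧ ¬ Rp k α (k + 1) N}.ncard : ℝ) ≤ (X : ℝ) ^ (1 - δ) := by
  classical
  obtain ⟨t, rfl⟩ : ∃ t, k = t + 1 := ⟨k - 1, by omega⟩
  obtain ⟨c, hc⟩ := pow_unbounded_of_one_lt (((t + 1 : ℕ) : ℝ) ^ 2) (by norm_num : (1 : ℝ) < 2)
  have h1 : ∀ᵐ α : Fin (t + 1) → ℝ, ∀ r : ℕ, ∀ ε : ℝ, 0 < ε → ∀ᶠ j : ℕ in atTop,
      (CN (t + 1) ((r : ℝ) + 1) ((t + 1 : ℕ) : ℝ) (2 ^ j) α : ℝ) ≤ ((2 : ℝ) ^ j) ^ (((t + 1 : ℕ) : ℝ) + ε) := by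
    rw [ae_all_iff]
    intro r
    exact ae_CN t (by linarith [Nat.cast_nonneg (α := ℝ) r]) (by positivity)
  filter_upwards [h1, ae_DC_pi (⟨t + 1 - 1, by omega⟩ : Fin (t + 1))] with α hMV hD hα
  obtain ⟨cD, hcD, hD⟩ := hD
  obtain ⟨hF, hE⟩ := ana_holds (t + 1) hk α hα
  have hES := hE cD hcD hD
  -- a bound for the coefficients
  obtain ⟨r, hr⟩ := exists_nat_ge (∑ i, α i)
  have hbox : ∀ i, α i ∈ Set.Icc (0 : ℝ) ((r : ℝ) + 1) := by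
    intro i
    refine ⟨(hα i).le, ?_⟩
    have := Finset.single_le_sum (f := α) (fun i _ => (hα i).le) (Finset.mem_univ i)
    linarith
  obtain ⟨δ, hδ, hδ1, hex⟩ := exc_block var_holds hk hF hES (t + 1) (AS (t + 1) c) (AS_nonempty _ _)
    (fun j x hx i => AM_pos Nat.one_le_two_pow hx i) (size_AS (by omega) hF hc.le) (JJ_AS hbox (hMV r))
  have hcount := exc_count hk hδ hδ1 (fun N => ¬ ∃ (x : Fin (t + 1) → ℕ) (z : ℕ), (∀ i, 1 ≤ x i) ∧ 1 ≤ z ∧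
    fsR (PT (t + 1) α) x + fr (PT (t + 1) α) z = N) hex
  obtain ⟨X0, hX0⟩ := eventually_atTop.1 hcount
  refine ⟨δ / (2 * ((t + 1 : ℕ) : ℝ)), by positivity, X0, fun X hX => ?_⟩
  have hfin : {N : ℕ | N < X ∧ ¬ Rp (t + 1) α (t + 1 + 1) N}.Finite := (Set.finite_Iio X).subset fun N hN => hN.1
  rw [Set.ncard_eq_toFinset_card _ hfin]
  apply hX0 X hX
  intro N hN
  rw [Set.Finite.mem_toFinset] at hN
  refine ⟨hN.1, ?_⟩
  rintro ⟨x, z, hx, hz, h⟩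
  apply hN.2
  rw [Rp_fr]
  refine ⟨Fin.cons z x, ?_, ?_⟩
  · intro i
    refine Fin.cases ?_ (fun i => ?_) i
    · simpa using hz
    · simpa using hx i
  · rw [Fin.sum_univ_succ]
    simp only [Fin.cons_zero, Fin.cons_succ]
    rw [← h, add_comm]
    rfl

/-- **`k` terms: a positive proportion is missed** -/
theorem main2 (k : ℕ) (hk : 2 ≤ k) (α : Fin k → ℝ) (hα : ∀ i, 0 < α i) : ∃ X₀ : ℕ, ∀ X : ℕ, X₀ ≤ X →
    ({N : ℕ | N < X ∧ Rp k α k N}.ncard : ℝ) ≤ 3 / 4 * X := by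
  classical
  have hf : ∀ n : ℕ, n ^ k ≤ fr (PT k α) n := by
    intro n
    unfold fr
    apply Nat.le_floor
    unfold PT
    push_cast
    have : 0 ≤ ∑ i : Fin k, α i * (n : ℝ) ^ (i : ℕ) := Finset.sum_nonneg fun i _ => mul_nonneg (hα i).le (by positivity)
    linarith
  obtain ⟨X0, hX0⟩ := Pool.Agent.J4H30.WT.few_values hk (fun n => fr (PT k α) n) hf
  refine ⟨X0, fun X hX => ?_⟩
  have hfin : {N : ℕ | N < X ∧ Rp k α k N}.Finite := (Set.finite_Iio X).subset fun N hN => hN.1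
  rw [Set.ncard_eq_toFinset_card _ hfin]
  apply hX0 X hX
  intro N hN
  rw [Set.Finite.mem_toFinset] at hN
  exact hN

end Pool.Agent.J4H7.WU
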