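import Pool.Agent.J4H7.WU.A

set_option autoImplicit false

/-!
# Waring's problem for generic polynomials, density one, part E (helper7)

The integers of one block with few representations.
-/

namespace Pool.Agent.J4H7.WU

open Real Set Filter Topology
open Pool.Agent.J4H7.WE
open Pool.Agent.J4H7.WP
open Pool.Agent.J4H7.WR
open Pool.Agent.J4H7.WS
open Pool.Agent.Helper153.Vdc (ee)

/-- **the integers of one block with few representations** -/
theorem few_block (hV : VAR) {k : ℕ} (hk : 2 ≤ k) {f : ℝ → ℝ} (hf : Fn k f) (hES : ESall k f) (n : ℕ)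
    (AS : ℕ → Finset (Fin n → ℕ)) (hne : ∀ j, (AS j).Nonempty) (hpos : ∀ j, ∀ x ∈ AS j, ∀ i, 1 ≤ x i)
    (hsize : ∀ᶠ j : ℕ in atTop, ∀ x ∈ AS j, (fsR f x : ℝ) ≤ 4 * (2 * (2 : ℝ) ^ j) ^ k)
    (hJ : ∀ ε : ℝ, 0 < ε → ∀ᶠ j : ℕ in atTop,
      (JJ (AS j) (fsR f) : ℝ) ≤ ((AS j).card : ℝ) ^ 2 * ((2 : ℝ) ^ j) ^ (-(k : ℝ) + ε)) :
    ∃ δ : ℝ, 0 < δ ∧ δ < 1 ∧ ∃ c0 : ℝ, 0 < c0 ∧ ∀ᶠ j : ℕ in atTop, ∀ S : Finset ℕ,
      (∀ N ∈ S, (16 * (2 : ℝ) ^ j) ^ k ≤ N ∧ (N : ℝ) ≤ (32 * (2 : ℝ) ^ j) ^ k ∧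
        ¬ ∃ T : Finset ((Fin n → ℕ) × ℕ), (∀ t ∈ T, (∀ i, 1 ≤ t.1 i) ∧ 1 ≤ t.2 ∧ fsR f t.1 + fr f t.2 = N) ∧
          c0 * (((AS j).card : ℝ) * ((2 : ℝ) ^ j) ^ (1 - (k : ℝ))) ≤ (T.card : ℝ)) →
      (S.card : ℝ) ≤ ((2 : ℝ) ^ j) ^ ((k : ℝ) - δ) := by
  classical
  have hk' : (2 : ℝ) ≤ k := by exact_mod_cast hk
  obtain ⟨ρ, hρ, hρ1, c', hc', X1, hX1, H1⟩ := count_R hk hf hES
  obtain ⟨τ, hτ0, hτρ, C, hC, X2, hX2, H2⟩ := gen_bound hk hf hES hρ hρ1
  refine ⟨τ, hτ0, by linarith, c' / 4, by positivity, ?_⟩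
  have hj : Tendsto (fun j : ℕ => (2 : ℝ) ^ j) atTop atTop := tendsto_pow_atTop_atTop_of_one_lt (by norm_num)
  have ev2 : ∀ᶠ X : ℝ in atTop, C ^ 2 * (16 / c' ^ 2) ≤ X ^ (τ / 2) :=
    (tendsto_rpow_atTop (by positivity)).eventually_ge_atTop _
  have evX := hj.eventually ((eventually_ge_atTop (max (max X1 X2) 4)).and ev2)
  filter_upwards [evX, hJ (τ / 2) (by positivity), hsize] with j hjX hJj hfs
  set X : ℝ := (2 : ℝ) ^ j with hXdef
  obtain ⟨gX, g2⟩ := hjX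
  have gX1 : X1 ≤ X := (le_max_left _ _).trans ((le_max_left _ _).trans gX)
  have gX2 : X2 ≤ X := (le_max_right _ _).trans ((le_max_left _ _).trans gX)
  have gX4 : 4 ≤ X := (le_max_right _ _).trans gX
  have hX1' : (1 : ℝ) ≤ X := by linarith
  have hX0 : 0 < X := by linarith
  intro S hS
  -- notation
  set W : ℕ := ⌈X ^ ((k : ℝ) - ρ)⌉₊ with hW
  have hXθρ : 1 ≤ X ^ ((k : ℝ) - ρ) := Real.one_le_rpow hX1' (by linarith)
  have hWl : X ^ ((k : ℝ) - ρ) ≤ W := Nat.le_ceil _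
  have hWu : (W : ℝ) ≤ 2 * X ^ ((k : ℝ) - ρ) := by
    have := Nat.ceil_lt_add_one (show 0 ≤ X ^ ((k : ℝ) - ρ) by linarith)
    rw [← hW] at this
    linarith
  have hW1 : 1 ≤ W := by
    have : (1 : ℝ) ≤ W := hXθρ.trans hWl
    exact_mod_cast this
  have hW0 : (0 : ℝ) < W := by exact_mod_cast hW1
  set A := AS j with hA
  set w : ℕ → ℝ := fun z : ℕ => ww (f z) with hw
  have hw0 : ∀ p, 0 ≤ w p := fun p => ww_nonneg _
  have hcard : 0 < (A.card : ℝ) := by exact_mod_cast Finset.card_pos.2 (hne j)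
  have hXk : 0 < X ^ (k : ℝ) := Real.rpow_pos_of_pos hX0 _
  have hXτ : 0 < X ^ (1 - τ) := Real.rpow_pos_of_pos hX0 _
  have key := hV n A (fsR f) (BB X) (fr f) w W (C * X ^ (1 - τ)) (by positivity) (fun α hα => H2 X gX2 α hα)
    (S.map ⟨fun n : ℕ => (n : ℤ), Nat.cast_injective⟩)
  rw [Finset.sum_map] at key
  simp only [Function.Embedding.coeFn_mk] at key
  -- powers
  have p1 : (16 : ℝ) ≤ (4 : ℝ) ^ k := by
    have : (4 : ℝ) ^ 2 ≤ (4 : ℝ) ^ k := pow_le_pow_right₀ (by norm_num) hk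
    linarith
  have p2 : (64 : ℝ) ≤ (8 : ℝ) ^ k := by
    have : (8 : ℝ) ^ 2 ≤ (8 : ℝ) ^ k := pow_le_pow_right₀ (by norm_num) hk
    linarith
  have hXkn : 0 < X ^ k := by positivity
  have e16 : (16 * X) ^ k = 8 ^ k * (2 * X) ^ k := by
    rw [← mul_pow]
    congr 1
    ring
  have e16' : (16 * X) ^ k = 4 ^ k * (4 * X) ^ k := by
    rw [← mul_pow]
    congr 1
    ring
  have e4 : (4 * X) ^ k = 4 ^ k * X ^ k := mul_pow _ _ _
  have h2X : 0 < (2 * X) ^ k := by positivity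
  have h4X : 0 < (4 * X) ^ k := by positivity
  -- one exceptional integer
  have hone : ∀ N ∈ S, ((A.card : ℝ) * (c' / 4 * X ^ (1 - (k : ℝ)))) ^ 2 ≤
      (rr A (fsR f) (BB X) (fr f) w (N : ℤ) - (1 / (W : ℝ)) * ∑ h ∈ Finset.range W, rr A (fsR f) (BB X) (fr f) w ((N : ℤ) - h)) ^ 2 := by
    intro N hN
    obtain ⟨hN1, hN2, hN3⟩ := hS N hN
    -- few representations
    have hz : rr A (fsR f) (BB X) (fr f) w (N : ℤ) ≤ c' / 4 * ((A.card : ℝ) * X ^ (1 - (k : ℝ))) := by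
      by_contra hcon
      push Not at hcon
      apply hN3
      refine ⟨(A ×ˢ BB X).filter fun t => (fsR f t.1 : ℤ) + fr f t.2 = N, ?_, hcon.le.trans ?_⟩
      · intro t ht
        rw [Finset.mem_filter, Finset.mem_product] at ht
        obtain ⟨⟨ha, hb⟩, h⟩ := ht
        refine ⟨hpos j _ ha, ?_, by exact_mod_cast h⟩
        unfold BB at hb
        rw [Finset.mem_Ico, Nat.ceil_le] at hb
        have : (1 : ℝ) ≤ t.2 := by linarith [hb.1]
        exact_mod_cast this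
      · unfold rr
        rw [Finset.card_filter]
        push_cast
        rw [Finset.sum_product]
        refine Finset.sum_le_sum fun a _ => Finset.sum_le_sum fun b _ => ?_
        split_ifs
        · exact ww_le _
        · exact le_rfl
    -- the average from below
    have havg : (A.card : ℝ) * (c' * X ^ (1 - ρ)) ≤
        ∑ h ∈ Finset.range W, rr A (fsR f) (BB X) (fr f) w ((N : ℤ) - h) := by
      have e1 : ∑ h ∈ Finset.range W, rr A (fsR f) (BB X) (fr f) w ((N : ℤ) - h) =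
          ∑ a ∈ A, ∑ b ∈ BB X, ∑ h ∈ Finset.range W,
            if ((fsR f a : ℤ) + fr f b = (N : ℤ) - h) then w b else 0 := by
        unfold rr
        rw [Finset.sum_comm]
        refine Finset.sum_congr rfl fun a _ => ?_
        rw [Finset.sum_comm]
      rw [e1]
      have h2 : ∀ a ∈ A, c' * X ^ (1 - ρ) ≤ ∑ b ∈ BB X, ∑ h ∈ Finset.range W,
          if ((fsR f a : ℤ) + fr f b = (N : ℤ) - h) then w b else 0 := by
        intro a ha
        have f1 := hfs a ha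
        have hle : fsR f a ≤ N := by
          have : (fsR f a : ℝ) ≤ N := by nlinarith
          exact_mod_cast this
        set T : ℕ := N - fsR f a with hT
        have hTr : (T : ℝ) = N - fsR f a := by
          rw [hT, Nat.cast_sub hle]
        have hT1 : 2 * (4 * X) ^ k ≤ (T : ℝ) - W + 1 := by
          have a1 : (W : ℝ) ≤ 2 * X ^ k := by
            have : X ^ ((k : ℝ) - ρ) ≤ X ^ (k : ℝ) := Real.rpow_le_rpow_of_exponent_le hX1' (by linarith)
            rw [Real.rpow_natCast] at this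
            linarith
          have a2 : (N : ℝ) / 2 ≤ T := by
            rw [hTr]
            nlinarith
          have a3 : 16 * (4 * X) ^ k ≤ N := by
            rw [e16'] at hN1
            nlinarith
          have a4 : 16 * X ^ k ≤ (4 * X) ^ k := by
            rw [e4]
            nlinarith
          linarith
        have hT2 : (T : ℝ) ≤ (32 * X) ^ k := by
          have : (0 : ℝ) ≤ (fsR f a : ℝ) := by positivity
          rw [hTr]
          linarith
        refine (H1 X gX1 W T hWl hT1 hT2).trans ?_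
        refine Finset.sum_le_sum fun b _ => ?_
        by_cases hb : T < fr f b + W ∧ fr f b ≤ T
        · rw [if_pos hb]
          set h : ℕ := T - fr f b with hh
          have hmem : h ∈ Finset.range W := by
            rw [Finset.mem_range]
            omega
          have h3 := Finset.single_le_sum (f := fun h : ℕ => if ((fsR f a : ℤ) + fr f b = (N : ℤ) - h) then w b else 0)
            (fun h _ => by
              split_ifs
              · exact hw0 _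
              · exact le_rfl) hmem
          refine le_trans ?_ h3
          rw [if_pos (by omega)]
        · rw [if_neg hb]
          apply Finset.sum_nonneg
          intro h _
          split_ifs
          · exact hw0 _
          · exact le_rfl
      calc (A.card : ℝ) * (c' * X ^ (1 - ρ)) = ∑ _a ∈ A, c' * X ^ (1 - ρ) := by
            simp only [Finset.sum_const, nsmul_eq_mul]
        _ ≤ _ := Finset.sum_le_sum fun a ha => h2 a ha
    have hX1θ : 0 < X ^ (1 - (k : ℝ)) := Real.rpow_pos_of_pos hX0 _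
    have h2 : (A.card : ℝ) * (c' / 2 * X ^ (1 - (k : ℝ))) ≤
        1 / (W : ℝ) * ∑ h ∈ Finset.range W, rr A (fsR f) (BB X) (fr f) w ((N : ℤ) - h) := by
      have h3 : (A.card : ℝ) * (c' / 2 * X ^ (1 - (k : ℝ))) ≤ 1 / (W : ℝ) * ((A.card : ℝ) * (c' * X ^ (1 - ρ))) := by
        have h4 : X ^ (1 - ρ) = X ^ (1 - (k : ℝ)) * X ^ ((k : ℝ) - ρ) := by
          rw [← Real.rpow_add hX0]
          congr 1
          ring
        have h5 : (W : ℝ) * X ^ (1 - (k : ℝ)) ≤ 2 * X ^ (1 - ρ) := by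
          rw [h4]
          nlinarith
        rw [one_div, ← div_eq_inv_mul, le_div_iff₀ hW0]
        have h6 : 0 ≤ (A.card : ℝ) * (c' / 2) := by positivity
        nlinarith [mul_le_mul_of_nonneg_left h5 h6]
      refine h3.trans ?_
      exact mul_le_mul_of_nonneg_left havg (by positivity)
    have h3 : (A.card : ℝ) * (c' / 4 * X ^ (1 - (k : ℝ))) ≤
        1 / (W : ℝ) * ∑ h ∈ Finset.range W, rr A (fsR f) (BB X) (fr f) w ((N : ℤ) - h) - rr A (fsR f) (BB X) (fr f) w (N : ℤ) := by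
      have e : (A.card : ℝ) * (c' / 2 * X ^ (1 - (k : ℝ))) = (A.card : ℝ) * (c' / 4 * X ^ (1 - (k : ℝ))) + c' / 4 * ((A.card : ℝ) * X ^ (1 - (k : ℝ))) := by ring
      linarith
    refine (pow_le_pow_left₀ (by positivity) h3 2).trans (le_of_eq ?_)
    ring
  -- the conclusion
  have hsum : (S.card : ℝ) * ((A.card : ℝ) * (c' / 4 * X ^ (1 - (k : ℝ)))) ^ 2 ≤ (C * X ^ (1 - τ)) ^ 2 * JJ A (fsR f) := by
    refine le_trans ?_ key
    calc (S.card : ℝ) * ((A.card : ℝ) * (c' / 4 * X ^ (1 - (k : ℝ)))) ^ 2 =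
          ∑ _N ∈ S, ((A.card : ℝ) * (c' / 4 * X ^ (1 - (k : ℝ)))) ^ 2 := by simp
      _ ≤ _ := Finset.sum_le_sum hone
  have hJ2 : (C * X ^ (1 - τ)) ^ 2 * JJ A (fsR f) ≤ (C * X ^ (1 - τ)) ^ 2 * ((A.card : ℝ) ^ 2 * X ^ (-(k : ℝ) + τ / 2)) :=
    mul_le_mul_of_nonneg_left hJj (by positivity)
  have hX1θ : 0 < X ^ (1 - (k : ℝ)) := Real.rpow_pos_of_pos hX0 _
  have hden : 0 < ((A.card : ℝ) * (c' / 4 * X ^ (1 - (k : ℝ)))) ^ 2 := by positivity
  rw [← mul_le_mul_iff_of_pos_right hden]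
  refine (hsum.trans hJ2).trans ?_
  have e1 : (X ^ (1 - τ)) ^ 2 * X ^ (-(k : ℝ) + τ / 2) * X ^ (τ / 2) = X ^ ((k : ℝ) - τ) * (X ^ (1 - (k : ℝ))) ^ 2 := by
    rw [← Real.rpow_natCast, ← Real.rpow_natCast, ← Real.rpow_mul hX0.le, ← Real.rpow_mul hX0.le, ← Real.rpow_add hX0,
      ← Real.rpow_add hX0, ← Real.rpow_add hX0]
    congr 1
    push_cast
    ring
  have hpp : 0 < (X ^ (1 - τ)) ^ 2 * X ^ (-(k : ℝ) + τ / 2) := by positivity
  calc (C * X ^ (1 - τ)) ^ 2 * ((A.card : ℝ) ^ 2 * X ^ (-(k : ℝ) + τ / 2))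
      = (A.card : ℝ) ^ 2 * (c' ^ 2 / 16) * ((C ^ 2 * (16 / c' ^ 2)) * ((X ^ (1 - τ)) ^ 2 * X ^ (-(k : ℝ) + τ / 2))) := by
        field_simp
    _ ≤ (A.card : ℝ) ^ 2 * (c' ^ 2 / 16) * (X ^ (τ / 2) * ((X ^ (1 - τ)) ^ 2 * X ^ (-(k : ℝ) + τ / 2))) := by
        apply mul_le_mul_of_nonneg_left _ (by positivity)
        exact mul_le_mul_of_nonneg_right g2 hpp.le
    _ = (A.card : ℝ) ^ 2 * (c' ^ 2 / 16) * ((X ^ (1 - τ)) ^ 2 * X ^ (-(k : ℝ) + τ / 2) * X ^ (τ / 2)) := by ring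
    _ = _ := by
        rw [e1]
        ring

end Pool.Agent.J4H7.WU
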