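import Pool.Agent.J4H7.WU.E
import Pool.Agent.J4H7.WU.D

set_option autoImplicit false

/-!
# Waring's problem for generic polynomials, density one, the number of representations (helper7, with helper30 and helper2)
-/

namespace Pool.Agent.J4H7.WU

open Finset MeasureTheory Filter Topology
open Pool.Agent.J4H7.WE (JJ)
open Pool.Agent.J4H7.WS (Fn ESall fr fsR fr_err)
open Pool.Agent.J4H7.WT

/-- at least `B` representations by `s` values of the polynomial -/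
def RpC (k : ℕ) (α : Fin k → ℝ) (s N : ℕ) (B : ℝ) : Prop := ∃ T : Finset (Fin s → ℕ), (∀ x ∈ T, (∀ i, 1 ≤ x i) ∧
  ∑ i, fr (PT k α) (x i) = N) ∧ B ≤ (T.card : ℝ)

/-- from the blocks to the count -/
lemma RpC_of {k : ℕ} (hk : 2 ≤ k) {α : Fin k → ℝ} {c j N : ℕ} {c0 : ℝ} (hc0 : 0 < c0) (hcj : c ≤ j)
    (hN : (N : ℝ) ≤ (32 * (2 : ℝ) ^ j) ^ k)
    (h : ∃ T : Finset ((Fin k → ℕ) × ℕ), (∀ t ∈ T, (∀ i, 1 ≤ t.1 i) ∧ 1 ≤ t.2 ∧ fsR (PT k α) t.1 + fr (PT k α) t.2 = N) ∧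
          c0 * (((AS k c j).card : ℝ) * ((2 : ℝ) ^ j) ^ (1 - (k : ℝ))) ≤ (T.card : ℝ)) :
    RpC k α (k + 1) N (c0 * (1 / ((2 : ℝ) ^ c) ^ k) * (1 / 32) * (N : ℝ) ^ ((1 : ℝ) / k)) := by
  classical
  have hk0 : (0 : ℝ) < k := by
    have : 0 < k := by omega
    exact_mod_cast this
  obtain ⟨T, hT1, hT2⟩ := h
  refine ⟨T.image fun t => (Fin.cons t.2 t.1 : Fin (k + 1) → ℕ), ?_, ?_⟩
  · intro w hw
    rw [Finset.mem_image] at hw
    obtain ⟨t, ht, rfl⟩ := hw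
    obtain ⟨a1, a2, a3⟩ := hT1 t ht
    refine ⟨?_, ?_⟩
    · intro i
      refine Fin.cases ?_ (fun i => ?_) i
      · simpa using a2
      · simpa using a1 i
    · rw [Fin.sum_univ_succ]
      simp only [Fin.cons_zero, Fin.cons_succ]
      rw [← a3, add_comm]
      rfl
  · rw [Finset.card_image_of_injective]
    · refine le_trans ?_ hT2
      set X : ℝ := (2 : ℝ) ^ j with hX
      have hX0 : 0 < X := by positivity
      have hcard : ((AS k c j).card : ℝ) = X ^ k * (1 / ((2 : ℝ) ^ c) ^ k) := by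
        unfold AS
        rw [AM_card]
        push_cast
        have e1 : (2 : ℝ) ^ (j - c) = X * (1 / 2 ^ c) := by
          rw [hX, mul_one_div, eq_div_iff (by positivity), ← pow_add, Nat.sub_add_cancel hcj]
        rw [e1, mul_pow, one_div_pow]
      have e2 : X ^ k * X ^ (1 - (k : ℝ)) = X := by
        rw [← Real.rpow_natCast, ← Real.rpow_add hX0]
        have : (k : ℝ) + (1 - (k : ℝ)) = 1 := by ring
        rw [this, Real.rpow_one]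
      have e3 : (N : ℝ) ^ ((1 : ℝ) / k) ≤ 32 * X := by
        have h1 := Real.rpow_le_rpow (by positivity) hN (show 0 ≤ (1 : ℝ) / k by positivity)
        rw [← Real.rpow_natCast (32 * X) k, ← Real.rpow_mul (by positivity), mul_one_div_cancel hk0.ne', Real.rpow_one] at h1
        exact h1
      rw [hcard]
      have hq : 0 ≤ c0 * (1 / ((2 : ℝ) ^ c) ^ k) := by positivity
      calc c0 * (1 / ((2 : ℝ) ^ c) ^ k) * (1 / 32) * (N : ℝ) ^ ((1 : ℝ) / k)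
          = c0 * (1 / ((2 : ℝ) ^ c) ^ k) * ((N : ℝ) ^ ((1 : ℝ) / k) / 32) := by ring
        _ ≤ c0 * (1 / ((2 : ℝ) ^ c) ^ k) * X := by
          apply mul_le_mul_of_nonneg_left _ hq
          linarith
        _ = c0 * (1 / ((2 : ℝ) ^ c) ^ k) * (X ^ k * X ^ (1 - (k : ℝ))) := by rw [e2]
        _ = c0 * (X ^ k * (1 / ((2 : ℝ) ^ c) ^ k) * X ^ (1 - (k : ℝ))) := by ring
    · rintro ⟨x, z⟩ ⟨x', z'⟩ hab
      obtain ⟨h1, h2⟩ := Fin.cons_injective2 hab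
      simp only at h1 h2
      rw [h1, h2]

/-- **`k + 1` terms: few integers with few representations** -/
theorem mainC (k : ℕ) (hk : 2 ≤ k) : ∀ᵐ α : Fin k → ℝ, (∀ i, 0 < α i) → ∃ c : ℝ, 0 < c ∧ ∃ δ : ℝ, 0 < δ ∧ ∃ X₀ : ℕ, ∀ X : ℕ, X₀ ≤ X →
    ({N : ℕ | N < X ∧ ¬ RpC k α (k + 1) N (c * (N : ℝ) ^ ((1 : ℝ) / k))}.ncard : ℝ) ≤ (X : ℝ) ^ (1 - δ) := by
  classical
  obtain ⟨t, rfl⟩ : ∃ t, k = t + 1 := ⟨k - 1, by omega⟩
  obtain ⟨c, hc⟩ := pow_unbounded_of_one_lt (((t + 1 : ℕ) : ℝ) ^ 2) (by norm_num : (1 : ℝ) < 2)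
  have h1 : ∀ᵐ α : Fin (t + 1) → ℝ, ∀ r : ℕ, ∀ ε : ℝ, 0 < ε → ∀ᶠ j : ℕ in atTop,
      (CN (t + 1) ((r : ℝ) + 1) ((t + 1 : ℕ) : ℝ) (2 ^ j) α : ℝ) ≤ ((2 : ℝ) ^ j) ^ (((t + 1 : ℕ) : ℝ) + ε) := by
    rw [ae_all_iff]
    intro r
    exact ae_CN t (by linarith [Nat.cast_nonneg (α := ℝ) r]) (by positivity)
  filter_upwards [h1, ae_DC_pi (⟨t + 1 - 1, by omega⟩ : Fin (t + 1))] with α hMV hD hα
  obtain ⟨cD, hcD, hD⟩ := hD
  obtain ⟨hF, hE⟩ := ana_holds (t + 1) hk α hα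
  have hES := hE cD hcD hD
  obtain ⟨r, hr⟩ := exists_nat_ge (∑ i, α i)
  have hbox : ∀ i, α i ∈ Set.Icc (0 : ℝ) ((r : ℝ) + 1) := by
    intro i
    refine ⟨(hα i).le, ?_⟩
    have := Finset.single_le_sum (f := α) (fun i _ => (hα i).le) (Finset.mem_univ i)
    linarith
  obtain ⟨δ, hδ, hδ1, c0, hc0, hex⟩ := few_block var_holds hk hF hES (t + 1) (AS (t + 1) c) (AS_nonempty _ _)
    (fun j x hx i => AM_pos Nat.one_le_two_pow hx i) (size_AS (by omega) hF hc.le) (JJ_AS hbox (hMV r))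
  set c1 : ℝ := c0 * (1 / ((2 : ℝ) ^ c) ^ (t + 1)) * (1 / 32) with hc1
  have hcount := exc_count hk hδ hδ1 (fun N => ¬ RpC (t + 1) α (t + 1 + 1) N (c1 * (N : ℝ) ^ ((1 : ℝ) / ((t + 1 : ℕ) : ℝ)))) (by
    filter_upwards [hex, eventually_ge_atTop c] with j hj hcj S hS
    apply hj S
    intro N hN
    obtain ⟨a1, a2, a3⟩ := hS N hN
    refine ⟨a1, a2, fun hT => a3 ?_⟩
    exact RpC_of hk hc0 hcj a2 hT)
  obtain ⟨X0, hX0⟩ := eventually_atTop.1 hcount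
  refine ⟨c1, by positivity, δ / (2 * ((t + 1 : ℕ) : ℝ)), by positivity, X0, fun X hX => ?_⟩
  have hfin : {N : ℕ | N < X ∧ ¬ RpC (t + 1) α (t + 1 + 1) N (c1 * (N : ℝ) ^ ((1 : ℝ) / ((t + 1 : ℕ) : ℝ)))}.Finite :=
    (Set.finite_Iio X).subset fun N hN => hN.1
  rw [Set.ncard_eq_toFinset_card _ hfin]
  apply hX0 X hX
  intro N hN
  rw [Set.Finite.mem_toFinset] at hN
  exact hN

/-- **all real coefficients** -/
theorem mainC_real (k : ℕ) (hk : 2 ≤ k) : ∀ᵐ α : Fin k → ℝ, ∃ c : ℝ, 0 < c ∧ ∃ δ : ℝ, 0 < δ ∧ ∃ X₀ : ℕ, ∀ X : ℕ, X₀ ≤ X →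
    ({N : ℕ | N < X ∧ ¬ ∃ T : Finset (Fin (k + 1) → ℕ), (∀ x ∈ T, (∀ i, 1 ≤ x i) ∧
      ∑ i, ⌊(x i : ℝ) ^ k + ∑ j : Fin k, α j * (x i : ℝ) ^ (j : ℕ)⌋ = (N : ℤ)) ∧
      c * (N : ℝ) ^ ((1 : ℝ) / k) ≤ (T.card : ℝ)}.ncard : ℝ) ≤ (X : ℝ) ^ (1 - δ) := by
  classical
  filter_upwards [ae_shift (mainC k hk)] with α hα
  obtain ⟨d, hd⟩ := Tc_pos k α
  obtain ⟨c, hc, δ, hδ, X₀, h⟩ := hα d hd
  refine ⟨c, hc, δ, hδ, X₀, fun X hX => le_trans ?_ (h X hX)⟩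
  have hfin : {N : ℕ | N < X ∧ ¬ RpC k (Tc k d α) (k + 1) N (c * (N : ℝ) ^ ((1 : ℝ) / k))}.Finite :=
    (Set.finite_Iio X).subset fun N hN => hN.1
  have hsub : {N : ℕ | N < X ∧ ¬ ∃ T : Finset (Fin (k + 1) → ℕ), (∀ x ∈ T, (∀ i, 1 ≤ x i) ∧
      ∑ i, ⌊(x i : ℝ) ^ k + ∑ j : Fin k, α j * (x i : ℝ) ^ (j : ℕ)⌋ = (N : ℤ)) ∧
      c * (N : ℝ) ^ ((1 : ℝ) / k) ≤ (T.card : ℝ)} ⊆
      {N : ℕ | N < X ∧ ¬ RpC k (Tc k d α) (k + 1) N (c * (N : ℝ) ^ ((1 : ℝ) / k))} := by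
    rintro N ⟨hN1, hN2⟩
    refine ⟨hN1, ?_⟩
    rintro ⟨T, hT1, hT2⟩
    apply hN2
    refine ⟨T.image fun x i => x i + d, ?_, ?_⟩
    · intro w hw
      rw [Finset.mem_image] at hw
      obtain ⟨x, hx, rfl⟩ := hw
      obtain ⟨a1, a2⟩ := hT1 x hx
      refine ⟨fun i => le_trans (a1 i) (Nat.le_add_right _ _), ?_⟩
      rw [Finset.sum_congr rfl fun i _ => val_shift hd (x i), ← a2]
      push_cast
      rfl
    · rw [Finset.card_image_of_injective]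
      · exact hT2
      · intro x y hxy
        funext i
        have := congrFun hxy i
        simpa using this
  exact_mod_cast Set.ncard_le_ncard hsub hfin

end Pool.Agent.J4H7.WU
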