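import Pool.Agent.J4H7.WU.F

set_option autoImplicit false

/-!
# Waring's problem for generic polynomials, density one, part G (helper7, with helper30)

The sums of `k` terms have upper density at most `1 / k!`.
-/

namespace Pool.Agent.J4H7.WU

open Finset MeasureTheory Filter Topology
open Pool.Agent.J4H7.WS (fr fr_err)
open Pool.Agent.J4H7.WT

/-- sums of `k` values of a function `f n ≥ n ^ k`: few values below `X` -/
theorem few_eps {k : ℕ} (hk : 1 ≤ k) (f : ℕ → ℕ) (hf : ∀ n, n ^ k ≤ f n) {ε : ℝ} (hε : 0 < ε) :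
    ∃ X0 : ℕ, ∀ X : ℕ, X0 ≤ X → ∀ T : Finset ℕ,
      (∀ N ∈ T, N < X ∧ ∃ x : Fin k → ℕ, (∀ i, 1 ≤ x i) ∧ ∑ i, f (x i) = N) → (T.card : ℝ) ≤ (1 / (k.factorial : ℝ) + ε) * X := by
  classical
  have hlim : Tendsto (fun m : ℕ => (1 + (k : ℝ) / m) ^ k) atTop (𝓝 ((1 + 0) ^ k)) :=
    (tendsto_const_nhds.add (tendsto_const_div_atTop_nhds_zero_nat (k : ℝ))).pow k
  rw [add_zero, one_pow] at hlim
  obtain ⟨M0, hM0⟩ := eventually_atTop.1 (hlim.eventually_le_const (by linarith : (1 : ℝ) < 1 + ε))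
  refine ⟨(max M0 1) ^ k, fun X hX T hT => ?_⟩
  set m : ℕ := Nat.findGreatest (fun m => m ^ k ≤ X) X with hm
  have hle : ∀ x : ℕ, x ^ k ≤ X → x ≤ m := by
    intro x hx
    exact Nat.le_findGreatest (P := fun m => m ^ k ≤ X) ((Nat.le_self_pow (by omega) x).trans hx) hx
  have hmX : m ^ k ≤ X := by
    have h1 : (fun m => m ^ k ≤ X) 0 := by
      show 0 ^ k ≤ X
      rw [zero_pow (by omega)]
      exact Nat.zero_le _
    exact Nat.findGreatest_spec (P := fun m => m ^ k ≤ X) (Nat.zero_le X) h1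
  have hmM : max M0 1 ≤ m := hle _ hX
  have hm1 : 1 ≤ m := (le_max_right _ _).trans hmM
  have hcard : T.card ≤ (m + k - 1).choose k := by
    set φ : Sym (Fin m) k → ℕ := fun s => (s.1.map (fun i : Fin m => f ((i : ℕ) + 1))).sum with hφ
    have hsub : T ⊆ Finset.univ.image φ := by
      intro N hN
      obtain ⟨hNX, x, hx1, hx2⟩ := hT N hN
      have hxm : ∀ i, x i ≤ m := by
        intro i
        apply hle
        refine (hf (x i)).trans (le_trans ?_ hNX.le)
        rw [← hx2]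
        exact Finset.single_le_sum (f := fun i => f (x i)) (fun _ _ => Nat.zero_le _) (Finset.mem_univ i)
      have hlt : ∀ i, x i - 1 < m := fun i => by
        have h1 := hx1 i
        have h2 := hxm i
        omega
      rw [Finset.mem_image]
      refine ⟨⟨(Finset.univ : Finset (Fin k)).val.map (fun i => (⟨x i - 1, hlt i⟩ : Fin m)), by simp⟩,
        Finset.mem_univ _, ?_⟩
      rw [hφ]
      show (((Finset.univ : Finset (Fin k)).val.map (fun i => (⟨x i - 1, hlt i⟩ : Fin m))).map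
        (fun i : Fin m => f ((i : ℕ) + 1))).sum = N
      rw [Multiset.map_map, ← hx2]
      show ((Finset.univ : Finset (Fin k)).val.map _).sum = ∑ i, f (x i)
      rw [Finset.sum]
      congr 1
      apply Multiset.map_congr rfl
      intro i _
      show f (x i - 1 + 1) = f (x i)
      rw [Nat.sub_add_cancel (hx1 i)]
    calc T.card ≤ (Finset.univ.image φ).card := Finset.card_le_card hsub
      _ ≤ (Finset.univ : Finset (Sym (Fin m) k)).card := Finset.card_image_le
      _ = (m + k - 1).choose k := by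
          rw [Finset.card_univ, Sym.card_sym_eq_choose, Fintype.card_fin]
  have hm0 : (0 : ℝ) < m := by exact_mod_cast hm1
  have hfac : (1 : ℝ) ≤ (k.factorial : ℝ) := by
    have : 1 ≤ k.factorial := Nat.factorial_pos k
    exact_mod_cast this
  have hfac0 : (0 : ℝ) < (k.factorial : ℝ) := by linarith
  calc (T.card : ℝ) ≤ ((m + k - 1).choose k : ℝ) := by exact_mod_cast hcard
    _ ≤ ((m + k - 1 : ℕ) : ℝ) ^ k / (k.factorial : ℝ) := Nat.choose_le_pow_div k (m + k - 1)
    _ ≤ ((m : ℝ) * (1 + k / m)) ^ k / (k.factorial : ℝ) := by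
        apply div_le_div_of_nonneg_right _ hfac0.le
        apply pow_le_pow_left₀ (Nat.cast_nonneg _)
        have e1 : (m : ℝ) * (1 + k / m) = ((m + k : ℕ) : ℝ) := by
          push_cast
          field_simp
        rw [e1]
        exact_mod_cast (show m + k - 1 ≤ m + k by omega)
    _ = (m : ℝ) ^ k * (1 + k / m) ^ k / (k.factorial : ℝ) := by rw [mul_pow]
    _ ≤ (m : ℝ) ^ k * (1 + ε) / (k.factorial : ℝ) := by
        apply div_le_div_of_nonneg_right _ hfac0.le
        apply mul_le_mul_of_nonneg_left _ (by positivity)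
        exact hM0 m ((le_max_left _ _).trans hmM)
    _ = (1 / (k.factorial : ℝ) + ε / (k.factorial : ℝ)) * (m : ℝ) ^ k := by ring
    _ ≤ (1 / (k.factorial : ℝ) + ε) * (m : ℝ) ^ k := by
        apply mul_le_mul_of_nonneg_right _ (by positivity)
        have : ε / (k.factorial : ℝ) ≤ ε := div_le_self hε.le hfac
        linarith
    _ ≤ (1 / (k.factorial : ℝ) + ε) * X := by
        apply mul_le_mul_of_nonneg_left _ (by positivity)
        exact_mod_cast hmX

/-- **`k` terms: at most the proportion `1 / k!`, all real coefficients** -/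
theorem few_real_eps (k : ℕ) (hk : 2 ≤ k) (α : Fin k → ℝ) {ε : ℝ} (hε : 0 < ε) : ∃ X₀ : ℕ, ∀ X : ℕ, X₀ ≤ X →
    ({N : ℕ | N < X ∧ ∃ x : Fin k → ℕ, (∀ i, 1 ≤ x i) ∧
      ∑ i, ⌊(x i : ℝ) ^ k + ∑ j : Fin k, α j * (x i : ℝ) ^ (j : ℕ)⌋ = (N : ℤ)}.ncard : ℝ) ≤ (1 / (k.factorial : ℝ) + ε) * X := by
  classical
  obtain ⟨c, hc⟩ := Tc_pos k α
  set p : ℕ → ℤ := fun n => ⌊(n : ℝ) ^ k + ∑ j : Fin k, α j * (n : ℝ) ^ (j : ℕ)⌋ with hp
  set f : ℕ → ℕ := fun n => ⌊(n : ℝ) ^ k + ∑ j : Fin k, Tc k c α j * (n : ℝ) ^ (j : ℕ)⌋₊ with hf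
  have hpf : ∀ n, p (n + c) = f n := fun n => val_shift hc n
  have hfk : ∀ n, n ^ k ≤ f n := by
    intro n
    apply Nat.le_floor
    push_cast
    have : 0 ≤ ∑ j : Fin k, Tc k c α j * (n : ℝ) ^ (j : ℕ) := Finset.sum_nonneg fun i _ => mul_nonneg (hc i).le (by positivity)
    linarith
  -- a lower bound for the values
  set B : ℕ := ∑ n ∈ range (c + 1), (p n).natAbs with hB
  have hpB : ∀ n, -(B : ℤ) ≤ p n := by
    intro n
    rcases Nat.lt_or_ge n (c + 1) with h | h
    · have h1 : (p n).natAbs ≤ B := Finset.single_le_sum (f := fun n => (p n).natAbs) (fun _ _ => Nat.zero_le _) (Finset.mem_range.2 h)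
      omega
    · have h1 := hpf (n - c)
      rw [Nat.sub_add_cancel (by omega)] at h1
      rw [h1]
      omega
  obtain ⟨X1, hX1⟩ := few_eps (by omega) f hfk (show 0 < ε / 2 by positivity)
  set C : ℝ := (c : ℝ) + 2 + (1 + k * B) with hC
  have hC0 : 0 < C := by positivity
  have hk0 : (0 : ℝ) < k := by
    have : 0 < k := by omega
    exact_mod_cast this
  have ev : ∀ᶠ X : ℕ in atTop, 2 / ε * (k * ((c + 1) * C ^ (k - 1))) ≤ (X : ℝ) ^ ((1 : ℝ) / k) :=
    ((tendsto_rpow_atTop (by positivity)).comp tendsto_natCast_atTop_atTop).eventually_ge_atTop _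
  obtain ⟨X2, hX2⟩ := eventually_atTop.1 ev
  refine ⟨max (max X1 X2) 1, fun X hX => ?_⟩
  have gX1 : X1 ≤ X := (le_max_left _ _).trans ((le_max_left _ _).trans hX)
  have gX2 : X2 ≤ X := (le_max_right _ _).trans ((le_max_left _ _).trans hX)
  have gX : 1 ≤ X := (le_max_right _ _).trans hX
  have gX' : (1 : ℝ) ≤ X := by exact_mod_cast gX
  have hX0 : (0 : ℝ) < X := by linarith
  set y : ℕ := ⌊((X + k * B : ℕ) : ℝ) ^ ((1 : ℝ) / k)⌋₊ with hy
  have hfy : ∀ n, f n ≤ X + k * B → n ≤ y := by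
    intro n hn
    apply Nat.le_floor
    have h1 : ((n ^ k : ℕ) : ℝ) ≤ ((X + k * B : ℕ) : ℝ) := by exact_mod_cast (hfk n).trans hn
    have h2 := Real.rpow_le_rpow (by positivity) h1 (show 0 ≤ (1 : ℝ) / k by positivity)
    rw [Nat.cast_pow, ← Real.rpow_natCast, ← Real.rpow_mul (by positivity), mul_one_div_cancel hk0.ne', Real.rpow_one] at h2
    exact h2
  have hpy : ∀ n, p n ≤ X + k * B → n ≤ c + y := by
    intro n hn
    by_contra hlt
    push Not at hlt
    have h1 := hpf (n - c)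
    rw [Nat.sub_add_cancel (by omega)] at h1
    rw [h1] at hn
    have := hfy (n - c) (by exact_mod_cast hn)
    omega
  -- the set
  have hfin : {N : ℕ | N < X ∧ ∃ x : Fin k → ℕ, (∀ i, 1 ≤ x i) ∧ ∑ i, p (x i) = (N : ℤ)}.Finite :=
    (Set.finite_Iio X).subset fun N hN => hN.1
  change ({N : ℕ | N < X ∧ ∃ x : Fin k → ℕ, (∀ i, 1 ≤ x i) ∧ ∑ i, p (x i) = (N : ℤ)}.ncard : ℝ) ≤ (1 / (k.factorial : ℝ) + ε) * X
  rw [Set.ncard_eq_toFinset_card _ hfin]
  set T := hfin.toFinset with hT
  set T1 := T.filter fun N => ∃ x : Fin k → ℕ, (∀ i, 1 ≤ x i) ∧ ∑ i, f (x i) = N with hT1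
  set U : Fin k → Finset (Fin k → ℕ) := fun i => Fintype.piFinset fun j : Fin k => if j = i then range (c + 1) else range (c + y + 1) with hU
  set T2 : Finset ℕ := Finset.univ.biUnion fun i => (U i).image fun x => (∑ j, p (x j)).toNat with hT2
  have hcov : T ⊆ T1 ∪ T2 := by
    intro N hN
    have hN' := hN
    rw [hT, Set.Finite.mem_toFinset] at hN'
    obtain ⟨hNX, x, hx, hs⟩ := hN'
    rw [Finset.mem_union]
    by_cases hall : ∀ i, c < x i
    · left
      rw [hT1, Finset.mem_filter]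
      refine ⟨hN, fun i => x i - c, fun i => Nat.sub_pos_of_lt (hall i), ?_⟩
      have h1 : ∀ i, p (x i) = f (x i - c) := by
        intro i
        have h2 := hpf (x i - c)
        rw [Nat.sub_add_cancel (hall i).le] at h2
        exact h2
      have h3 : ((∑ i, f (x i - c) : ℕ) : ℤ) = N := by
        rw [← hs]
        push_cast
        exact Finset.sum_congr rfl fun i _ => (h1 i).symm
      exact_mod_cast h3
    · right
      push Not at hall
      obtain ⟨i, hi⟩ := hall
      rw [hT2, Finset.mem_biUnion]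
      refine ⟨i, Finset.mem_univ _, ?_⟩
      rw [Finset.mem_image]
      refine ⟨x, ?_, ?_⟩
      · rw [hU]
        simp only
        rw [Fintype.mem_piFinset]
        intro j
        split_ifs with hji
        · rw [Finset.mem_range, hji]
          omega
        · rw [Finset.mem_range, Nat.lt_succ_iff]
          apply hpy
          have h1 : ∑ l ∈ (Finset.univ.erase j), p (x l) ≥ ∑ _l ∈ (Finset.univ.erase j : Finset (Fin k)), (-(B : ℤ)) :=
            Finset.sum_le_sum fun l _ => hpB _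
          rw [Finset.sum_const, Finset.card_erase_of_mem (Finset.mem_univ _), Finset.card_univ, Fintype.card_fin] at h1
          have h2 : p (x j) + ∑ l ∈ (Finset.univ.erase j), p (x l) = ∑ l, p (x l) :=
            Finset.add_sum_erase Finset.univ (fun l => p (x l)) (Finset.mem_univ j)
          rw [hs] at h2
          have h4 : (N : ℤ) < X := by exact_mod_cast hNX
          have h5 : ((k - 1 : ℕ) : ℤ) * B ≤ k * B := by
            have : (k - 1) * B ≤ k * B := Nat.mul_le_mul_right _ (Nat.sub_le _ _)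
            exact_mod_cast this
          rw [nsmul_eq_mul] at h1
          nlinarith
      · rw [hs]
        simp
  -- the first part
  have hc1 : (T1.card : ℝ) ≤ (1 / (k.factorial : ℝ) + ε / 2) * X := by
    apply hX1 X gX1
    intro N hN
    rw [hT1, Finset.mem_filter, hT, Set.Finite.mem_toFinset] at hN
    exact ⟨hN.1.1, hN.2⟩
  -- the second part
  have hUc : ∀ i, (U i).card = (c + 1) * (c + y + 1) ^ (k - 1) := by
    intro i
    rw [hU]
    simp only
    rw [Fintype.card_piFinset, ← Finset.mul_prod_erase _ _ (Finset.mem_univ i), if_pos rfl, Finset.card_range]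
    congr 1
    rw [Finset.prod_congr rfl (g := fun _ => c + y + 1) (fun j hj => by
      rw [if_neg (Finset.ne_of_mem_erase hj), Finset.card_range])]
    rw [Finset.prod_const, Finset.card_erase_of_mem (Finset.mem_univ _), Finset.card_univ, Fintype.card_fin]
  have hc2 : T2.card ≤ k * ((c + 1) * (c + y + 1) ^ (k - 1)) := by
    calc T2.card ≤ ∑ i : Fin k, ((U i).image fun x => (∑ j, p (x j)).toNat).card := Finset.card_biUnion_le
      _ ≤ ∑ i : Fin k, (U i).card := Finset.sum_le_sum fun i _ => Finset.card_image_le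
      _ = _ := by
        rw [Finset.sum_congr rfl fun i _ => hUc i]
        simp
  have hyC : ((c + y + 1 : ℕ) : ℝ) ≤ C * (X : ℝ) ^ ((1 : ℝ) / k) := by
    have h1 : (y : ℝ) ≤ ((X + k * B : ℕ) : ℝ) ^ ((1 : ℝ) / k) := Nat.floor_le (by positivity)
    have h2 : ((X + k * B : ℕ) : ℝ) ≤ (1 + k * B) * X := by
      push_cast
      have : (0 : ℝ) ≤ k * B := by positivity
      nlinarith
    have h3 : ((X + k * B : ℕ) : ℝ) ^ ((1 : ℝ) / k) ≤ ((1 + k * B) * X) ^ ((1 : ℝ) / k) :=
      Real.rpow_le_rpow (by positivity) h2 (by positivity)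
    have h4 : (((1 : ℝ) + k * B) * X) ^ ((1 : ℝ) / k) = (1 + k * B : ℝ) ^ ((1 : ℝ) / k) * (X : ℝ) ^ ((1 : ℝ) / k) :=
      Real.mul_rpow (by positivity) (by positivity)
    have h5 : (1 + k * B : ℝ) ^ ((1 : ℝ) / k) ≤ 1 + k * B := by
      have a1 : (1 : ℝ) ≤ 1 + k * B := by
        have : (0 : ℝ) ≤ k * B := by positivity
        linarith
      calc (1 + k * B : ℝ) ^ ((1 : ℝ) / k) ≤ (1 + k * B : ℝ) ^ (1 : ℝ) := by
            apply Real.rpow_le_rpow_of_exponent_le a1
            rw [div_le_one hk0]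
            have : 1 ≤ k := by omega
            exact_mod_cast this
        _ = _ := Real.rpow_one _
    have h6 : (1 : ℝ) ≤ (X : ℝ) ^ ((1 : ℝ) / k) := Real.one_le_rpow gX' (by positivity)
    have h7 : (y : ℝ) ≤ (1 + k * B) * (X : ℝ) ^ ((1 : ℝ) / k) := by
      refine h1.trans (h3.trans ?_)
      rw [h4]
      exact mul_le_mul_of_nonneg_right h5 (by positivity)
    push_cast
    rw [hC]
    have h8 : (0 : ℝ) ≤ c := by positivity
    nlinarith
  have hfinal : (T2.card : ℝ) ≤ ε / 2 * X := by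
    have h1 : (T2.card : ℝ) ≤ k * ((c + 1) * ((c + y + 1 : ℕ) : ℝ) ^ (k - 1)) := by exact_mod_cast hc2
    have h2 : (((c + y + 1 : ℕ) : ℝ)) ^ (k - 1) ≤ (C * (X : ℝ) ^ ((1 : ℝ) / k)) ^ (k - 1) := pow_le_pow_left₀ (by positivity) hyC _
    rw [mul_pow] at h2
    have h3 := hX2 X gX2
    have h4 : (X : ℝ) ^ ((1 : ℝ) / k) * ((X : ℝ) ^ ((1 : ℝ) / k)) ^ (k - 1) = X := by
      rw [← pow_succ', Nat.sub_add_cancel (by omega), ← Real.rpow_natCast, ← Real.rpow_mul hX0.le, one_div,
        inv_mul_cancel₀ hk0.ne', Real.rpow_one]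
    set w := ((X : ℝ) ^ ((1 : ℝ) / k)) ^ (k - 1) with hw
    have hw0 : 0 ≤ w := by positivity
    calc (T2.card : ℝ) ≤ k * ((c + 1) * ((c + y + 1 : ℕ) : ℝ) ^ (k - 1)) := h1
      _ ≤ k * ((c + 1) * (C ^ (k - 1) * w)) := by gcongr
      _ = ε / 2 * ((2 / ε * (k * ((c + 1) * C ^ (k - 1)))) * w) := by field_simp
      _ ≤ ε / 2 * ((X : ℝ) ^ ((1 : ℝ) / k) * w) := by
          apply mul_le_mul_of_nonneg_left _ (by positivity)
          exact mul_le_mul_of_nonneg_right h3 hw0
      _ = _ := by rw [h4]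
  have h1 : T.card ≤ T1.card + T2.card := (Finset.card_le_card hcov).trans (Finset.card_union_le _ _)
  have h2 : (T.card : ℝ) ≤ T1.card + T2.card := by exact_mod_cast h1
  have h3 : (1 / (k.factorial : ℝ) + ε) * X = (1 / (k.factorial : ℝ) + ε / 2) * X + ε / 2 * X := by ring
  rw [h3]
  linarith

end Pool.Agent.J4H7.WU
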